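import Mathlib

/-!
# Triples concentrated on powers of three integers
-/

namespace Pool.Agent.Lib.AbcI

open Finset

/-- `m 0, m 1, m 2` are the members of an abc-triple (in any order), and `m i` is essentially the
power `P i ^ e i` of the integer `P i ≥ 2`. -/
structure Conc (δ h : ℝ) (P e m : Fin 3 → ℕ) : Prop where
  pos : ∀ i, 0 < m i
  two : ∀ i, 2 ≤ P i
  cop : ∀ i j, i ≠ j → Nat.Coprime (m i) (m j)
  ne : ∀ i j, i ≠ j → m i ≠ m j
  dvd : ∀ i j k, i ≠ j → j ≠ k → i ≠ k → (m i : ℤ) ∣ (m j : ℤ) ^ 2 - (m k : ℤ) ^ 2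
  ub : ∀ i, Real.log (m i) ≤ h
  dvd_pow : ∀ i, P i ^ e i ∣ m i
  lb : ∀ i, (1 - δ) * h ≤ (e i : ℝ) * Real.log (P i)

/-- the cofactor of `P i ^ e i` in `m i` -/
def co (P e m : Fin 3 → ℕ) (i : Fin 3) : ℕ := m i / P i ^ e i

theorem Conc.Ppos {δ h : ℝ} {P e m : Fin 3 → ℕ} (H : Conc δ h P e m) (i : Fin 3) : 0 < P i :=
  lt_of_lt_of_le (by norm_num) (H.two i)

theorem Conc.eq {δ h : ℝ} {P e m : Fin 3 → ℕ} (H : Conc δ h P e m) (i : Fin 3) :
    P i ^ e i * co P e m i = m i := Nat.mul_div_cancel' (H.dvd_pow i)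

theorem Conc.co_pos {δ h : ℝ} {P e m : Fin 3 → ℕ} (H : Conc δ h P e m) (i : Fin 3) :
    0 < co P e m i := by
  rcases Nat.eq_zero_or_pos (co P e m i) with h0 | h0
  · have h1 := H.eq i
    rw [h0, mul_zero] at h1
    have := H.pos i
    omega
  · exact h0

theorem Conc.log_eq {δ h : ℝ} {P e m : Fin 3 → ℕ} (H : Conc δ h P e m) (i : Fin 3) :
    (e i : ℝ) * Real.log (P i) + Real.log (co P e m i) = Real.log (m i) := by
  have h1 : (0 : ℝ) < P i := by exact_mod_cast H.Ppos i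
  have h2 : (0 : ℝ) < co P e m i := by exact_mod_cast H.co_pos i
  have h3 : ((P i : ℝ) ^ e i) * co P e m i = m i := by exact_mod_cast H.eq i
  rw [← h3, Real.log_mul (by positivity) h2.ne', Real.log_pow]

theorem Conc.lb' {δ h : ℝ} {P e m : Fin 3 → ℕ} (H : Conc δ h P e m) (i : Fin 3) :
    (1 - δ) * h ≤ (e i : ℝ) * Real.log (P i) := H.lb i

theorem Conc.ub' {δ h : ℝ} {P e m : Fin 3 → ℕ} (H : Conc δ h P e m) (i : Fin 3) :
    (e i : ℝ) * Real.log (P i) ≤ h := by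
  have h1 := H.log_eq i
  have h2 := H.ub i
  have h3 : 0 ≤ Real.log (co P e m i) := Real.log_natCast_nonneg _
  linarith

theorem Conc.co_le {δ h : ℝ} {P e m : Fin 3 → ℕ} (H : Conc δ h P e m) (i : Fin 3) :
    Real.log (co P e m i) ≤ δ * h := by
  have h1 := H.log_eq i
  have h2 := H.ub i
  have h3 := H.lb' i
  linarith

theorem Conc.h_nonneg {δ h : ℝ} {P e m : Fin 3 → ℕ} (H : Conc δ h P e m) : 0 ≤ h :=
  (Real.log_natCast_nonneg _).trans (H.ub 0)

theorem Conc.logP_pos {δ h : ℝ} {P e m : Fin 3 → ℕ} (H : Conc δ h P e m) (i : Fin 3) :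
    0 < Real.log (P i) := Real.log_pos (by exact_mod_cast (by have := H.two i; omega : 1 < P i))

/-- the exponents are positive -/
theorem Conc.ev_pos {δ h : ℝ} {P e m : Fin 3 → ℕ} (H : Conc δ h P e m) (hδ : δ < 1) (hh : 0 < h)
    (i : Fin 3) : 0 < e i := by
  rcases Nat.eq_zero_or_pos (e i) with h0 | h0
  · have h1 := H.lb' i
    rw [h0] at h1
    have h2 : 0 < (1 - δ) * h := mul_pos (by linarith) hh
    simp at h1
    linarith
  · exact h0

theorem Conc.base_dvd {δ h : ℝ} {P e m : Fin 3 → ℕ} (H : Conc δ h P e m) (hδ : δ < 1)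
    (hh : 0 < h) (i : Fin 3) : P i ∣ m i :=
  (dvd_pow_self _ (H.ev_pos hδ hh i).ne').trans (H.dvd_pow i)

/-- `P i` is coprime to `m j` for `i ≠ j` -/
theorem Conc.base_cop {δ h : ℝ} {P e m : Fin 3 → ℕ} (H : Conc δ h P e m) (hδ : δ < 1)
    (hh : 0 < h) {i j : Fin 3} (hij : i ≠ j) : Nat.Coprime (P i) (m j) :=
  (H.cop i j hij).coprime_dvd_left (H.base_dvd hδ hh i)

theorem Conc.cop_PP {δ h : ℝ} {P e m : Fin 3 → ℕ} (H : Conc δ h P e m) (hδ : δ < 1) (hh : 0 < h)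
    {i j : Fin 3} (hij : i ≠ j) : Nat.Coprime (P i) (P j) :=
  (H.base_cop hδ hh hij).coprime_dvd_right (H.base_dvd hδ hh j)

end Pool.Agent.Lib.AbcI
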