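import Mathlib
import Pool.Agent.Lib.AbcI.Conc
import Pool.Agent.Lib.AbcE.Core

/-!
# The Thue-Siegel argument for two triples concentrated on the same three integers
-/

namespace Pool.Agent.Lib.AbcI

open Finset

/-- the numbers `A1`, `A2` -/
theorem key_identity (p v v' r x x' y : ℕ) (hv : v * r ≤ v') :
    (p ^ (2 * (v' - v * r)) * x' ^ 2 * y ^ (2 * r)) * ((p ^ v * x) ^ 2) ^ r =
      (p ^ v' * x') ^ 2 * (x * y) ^ (2 * r) := by
  have h1 : p ^ (2 * (v' - v * r)) * ((p ^ v) ^ 2) ^ r = (p ^ v') ^ 2 := by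
    rw [← pow_mul, ← pow_mul, ← pow_mul, ← pow_add]
    congr 1
    obtain ⟨k, hk⟩ := Nat.exists_eq_add_of_le hv
    have : v' - v * r = k := by omega
    rw [this, hk]
    ring
  calc (p ^ (2 * (v' - v * r)) * x' ^ 2 * y ^ (2 * r)) * ((p ^ v * x) ^ 2) ^ r
      = (p ^ (2 * (v' - v * r)) * ((p ^ v) ^ 2) ^ r) * x' ^ 2 * (x * y) ^ (2 * r) := by
        rw [mul_pow (p ^ v) x 2, mul_pow, mul_pow x y, ← pow_mul x 2 r]
        ring
    _ = (p ^ v' * x') ^ 2 * (x * y) ^ (2 * r) := by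
        rw [h1]
        ring

/-- Two triples concentrated on the same integers: the larger height is at most `40000` times the
smaller one. -/
theorem siegel_gap {δ h1 h2 : ℝ} {P e e' m m' : Fin 3 → ℕ} (H1 : Conc δ h1 P e m)
    (H2 : Conc δ h2 P e' m') (hδ0 : 0 ≤ δ) (hδ : δ ≤ 1 / 1000000) (hh1 : 10000 ≤ h1) :
    h2 < 40000 * h1 := by
  by_contra hcon
  push Not at hcon
  have hh1' : 0 < h1 := by linarith
  have hh2' : 0 < h2 := by linarith
  have hδ1 : δ < 1 := by linarith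
  -- notation
  set u := e 0 with hu
  set u' := e' 0 with hu'
  set v := e 1 with hv
  set v' := e' 1 with hv'
  set w := e 2 with hw
  set w' := e' 2 with hw'
  set x1 := co P e m 1 with hx1
  set x1' := co P e' m' 1 with hx1'
  set x2 := co P e m 2 with hx2
  set x2' := co P e' m' 2 with hx2'
  have hupos : 0 < u := H1.ev_pos hδ1 hh1' 0
  have hvpos : 0 < v := H1.ev_pos hδ1 hh1' 1
  have hwpos : 0 < w := H1.ev_pos hδ1 hh1' 2
  have hu'pos : 0 < u' := H2.ev_pos hδ1 hh2' 0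
  -- logs
  have lu1 : (1 - δ) * h1 ≤ u * Real.log (P 0) := H1.lb' 0
  have lu2 : (u : ℝ) * Real.log (P 0) ≤ h1 := H1.ub' 0
  have lu'1 : (1 - δ) * h2 ≤ u' * Real.log (P 0) := H2.lb' 0
  have lu'2 : (u' : ℝ) * Real.log (P 0) ≤ h2 := H2.ub' 0
  have lv1 : (1 - δ) * h1 ≤ v * Real.log (P 1) := H1.lb' 1
  have lv2 : (v : ℝ) * Real.log (P 1) ≤ h1 := H1.ub' 1
  have lv'1 : (1 - δ) * h2 ≤ v' * Real.log (P 1) := H2.lb' 1
  have lv'2 : (v' : ℝ) * Real.log (P 1) ≤ h2 := H2.ub' 1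
  have lw1 : (1 - δ) * h1 ≤ w * Real.log (P 2) := H1.lb' 2
  have lw2 : (w : ℝ) * Real.log (P 2) ≤ h1 := H1.ub' 2
  have lw'1 : (1 - δ) * h2 ≤ w' * Real.log (P 2) := H2.lb' 2
  have lw'2 : (w' : ℝ) * Real.log (P 2) ≤ h2 := H2.ub' 2
  have hP0 := H1.logP_pos 0
  have hP1 := H1.logP_pos 1
  have hP2 := H1.logP_pos 2
  -- `r`
  set r : ℕ := min (v' / v) (w' / w) with hr
  have hrv : v * r ≤ v' := (Nat.mul_le_mul_left v (min_le_left _ _)).trans (Nat.mul_div_le _ _)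
  have hrw : w * r ≤ w' := (Nat.mul_le_mul_left w (min_le_right _ _)).trans (Nat.mul_div_le _ _)
  have hrvR : (v : ℝ) * r ≤ v' := by exact_mod_cast hrv
  have hrwR : (w : ℝ) * r ≤ w' := by exact_mod_cast hrw
  have hr0 : (0 : ℝ) ≤ r := Nat.cast_nonneg _
  have hrup : (r : ℝ) * ((1 - δ) * h1) ≤ h2 := by
    calc (r : ℝ) * ((1 - δ) * h1) ≤ r * (v * Real.log (P 1)) := by gcongr
      _ = (v * r) * Real.log (P 1) := by ring
      _ ≤ v' * Real.log (P 1) := by gcongr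
      _ ≤ h2 := lv'2
  have hrlow : (1 - δ) * h2 ≤ ((r : ℝ) + 1) * h1 := by
    rcases le_total (v' / v) (w' / w) with hle | hle
    · have e1 : r = v' / v := min_eq_left hle
      have e2 : v' < v * (r + 1) := by
        rw [e1]
        exact Nat.lt_mul_div_succ _ hvpos
      have e3 : (v' : ℝ) ≤ v * ((r : ℝ) + 1) := by exact_mod_cast e2.le
      calc (1 - δ) * h2 ≤ v' * Real.log (P 1) := lv'1
        _ ≤ v * ((r : ℝ) + 1) * Real.log (P 1) := by gcongr
        _ = ((r : ℝ) + 1) * (v * Real.log (P 1)) := by ring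
        _ ≤ ((r : ℝ) + 1) * h1 := by gcongr
    · have e1 : r = w' / w := min_eq_right hle
      have e2 : w' < w * (r + 1) := by
        rw [e1]
        exact Nat.lt_mul_div_succ _ hwpos
      have e3 : (w' : ℝ) ≤ w * ((r : ℝ) + 1) := by exact_mod_cast e2.le
      calc (1 - δ) * h2 ≤ w' * Real.log (P 2) := lw'1
        _ ≤ w * ((r : ℝ) + 1) * Real.log (P 2) := by gcongr
        _ = ((r : ℝ) + 1) * (w * Real.log (P 2)) := by ring
        _ ≤ ((r : ℝ) + 1) * h1 := by gcongr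
  -- `N`
  set N : ℕ := u' / u + 1 with hN
  have hNu : u' ≤ u * N := (Nat.lt_mul_div_succ _ hupos).le
  have hNu2 : u * (N - 1) ≤ u' := by
    rw [hN, Nat.add_sub_cancel]
    exact Nat.mul_div_le _ _
  have hNpos : 1 ≤ N := by rw [hN]; exact Nat.le_add_left 1 _
  have hN1 : ((N - 1 : ℕ) : ℝ) = N - 1 := by
    rw [Nat.cast_sub hNpos, Nat.cast_one]
  have hNlow : (1 - δ) * h2 ≤ N * h1 := by
    have e3 : (u' : ℝ) ≤ u * N := by exact_mod_cast hNu
    calc (1 - δ) * h2 ≤ u' * Real.log (P 0) := lu'1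
      _ ≤ u * N * Real.log (P 0) := by gcongr
      _ = N * (u * Real.log (P 0)) := by ring
      _ ≤ N * h1 := by gcongr
  have hNup : ((N : ℝ) - 1) * ((1 - δ) * h1) ≤ h2 := by
    have e3 : (u : ℝ) * ((N : ℝ) - 1) ≤ u' := by
      rw [← hN1]
      exact_mod_cast hNu2
    have e4 : (0 : ℝ) ≤ (N : ℝ) - 1 := by
      have : (1 : ℝ) ≤ N := by exact_mod_cast hNpos
      linarith
    calc ((N : ℝ) - 1) * ((1 - δ) * h1) ≤ ((N : ℝ) - 1) * (u * Real.log (P 0)) := by gcongr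
      _ = u * ((N : ℝ) - 1) * Real.log (P 0) := by ring
      _ ≤ u' * Real.log (P 0) := by gcongr
      _ ≤ h2 := lu'2
  -- numerical consequences
  have hδh2 : δ * h2 ≤ h2 / 1000000 := by
    calc δ * h2 ≤ (1 / 1000000) * h2 := by gcongr
      _ = h2 / 1000000 := by ring
  have hδh1 : δ * h1 ≤ h1 / 1000000 := by
    calc δ * h1 ≤ (1 / 1000000) * h1 := by gcongr
      _ = h1 / 1000000 := by ring
  have hNh : (N : ℝ) * h1 ≤ 1.002 * h2 := by
    have e1 : ((N : ℝ) - 1) * (0.9999 * h1) ≤ h2 := by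
      refine le_trans ?_ hNup
      have e4 : (0 : ℝ) ≤ (N : ℝ) - 1 := by
        have : (1 : ℝ) ≤ N := by exact_mod_cast hNpos
        linarith
      have e5 : 0.9999 * h1 ≤ (1 - δ) * h1 := by
        apply mul_le_mul_of_nonneg_right _ hh1'.le
        linarith
      gcongr
    nlinarith
  have hrh : (r : ℝ) * h1 ≤ 1.002 * h2 := by
    have e1 : (r : ℝ) * (0.9999 * h1) ≤ h2 := by
      refine le_trans ?_ hrup
      have e5 : 0.9999 * h1 ≤ (1 - δ) * h1 := by
        apply mul_le_mul_of_nonneg_right _ hh1'.le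
        linarith
      gcongr
    nlinarith
  have hNbig : (39000 : ℝ) ≤ N := by
    have e1 : (0.9999 : ℝ) * h2 ≤ N * h1 := by
      refine le_trans ?_ hNlow
      apply mul_le_mul_of_nonneg_right _ hh2'.le
      linarith
    have e2 : 39000 * h1 ≤ N * h1 := by linarith
    exact le_of_mul_le_mul_right e2 hh1'
  have hNr : (N : ℝ) ≤ 2 * r := by
    -- `N h1 ≤ 1.002 h2`, `0.9999 h2 ≤ (r+1) h1`
    have e1 : (0.9999 : ℝ) * h2 ≤ (r + 1) * h1 := by
      refine le_trans ?_ hrlow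
      apply mul_le_mul_of_nonneg_right _ hh2'.le
      linarith
    have e2 : (N : ℝ) * h1 ≤ 1.1 * (r + 1) * h1 := by nlinarith
    have e3 : (N : ℝ) ≤ 1.1 * (r + 1) := le_of_mul_le_mul_right e2 hh1'
    linarith
  have hNbig' : 39000 ≤ N := by exact_mod_cast hNbig
  have hNr' : N ≤ 2 * r := by exact_mod_cast hNr
  -- `D`, `d`
  set D : ℕ := N / 60 with hD
  set d : ℕ := 4 * N / (D + 1) with hd
  have hD1 : 60 * D ≤ N := Nat.mul_div_le _ _
  have hD2 : N < 60 * (D + 1) := Nat.lt_mul_div_succ _ (by norm_num)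
  have hd1 : d * (D + 1) ≤ 4 * N := Nat.div_mul_le_self _ _
  have hd2 : 4 * N < (D + 1) * (d + 1) := Nat.lt_mul_div_succ _ (by omega)
  have hd3 : d < 240 := by
    by_contra hc
    push Not at hc
    have : 240 * (D + 1) ≤ d * (D + 1) := Nat.mul_le_mul_right _ hc
    omega
  have hx : (D + 1) * (d + 1) ≤ 4 * N + (D + 1) := by
    have : (D + 1) * (d + 1) = d * (D + 1) + (D + 1) := by ring
    omega
  -- data
  set B1 : ℕ := (P 1 ^ v * x1) ^ 2 with hB1
  set B2 : ℕ := (P 2 ^ w * x2) ^ 2 with hB2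
  set A1 : ℕ := P 1 ^ (2 * (v' - v * r)) * x1' ^ 2 * x2 ^ (2 * r) with hA1
  set A2 : ℕ := P 2 ^ (2 * (w' - w * r)) * x2' ^ 2 * x1 ^ (2 * r) with hA2
  have hm1 : P 1 ^ v * x1 = m 1 := H1.eq 1
  have hm2 : P 2 ^ w * x2 = m 2 := H1.eq 2
  have hm1' : P 1 ^ v' * x1' = m' 1 := H2.eq 1
  have hm2' : P 2 ^ w' * x2' = m' 2 := H2.eq 2
  have hx1p : 0 < x1 := H1.co_pos 1
  have hx2p : 0 < x2 := H1.co_pos 2
  have hx1'p : 0 < x1' := H2.co_pos 1
  have hx2'p : 0 < x2' := H2.co_pos 2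
  have hP1p : 0 < P 1 := (H1.Ppos 1)
  have hP2p : 0 < P 2 := (H1.Ppos 2)
  have hP0p : 0 < P 0 := (H1.Ppos 0)
  have h01 : (0 : Fin 3) ≠ 1 := by decide
  have h02 : (0 : Fin 3) ≠ 2 := by decide
  have h12 : (1 : Fin 3) ≠ 2 := by decide
  have hA1p : 0 < A1 := by rw [hA1]; positivity
  have hA2p : 0 < A2 := by rw [hA2]; positivity
  have hB1p : 0 < B1 := by rw [hB1]; positivity
  have hB2p : 0 < B2 := by rw [hB2]; positivity
  have hid1 : A1 * B1 ^ r = (m' 1) ^ 2 * (x1 * x2) ^ (2 * r) := by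
    rw [hA1, hB1, key_identity (P 1) v v' r x1 x1' x2 hrv, hm1']
  have hid2 : A2 * B2 ^ r = (m' 2) ^ 2 * (x1 * x2) ^ (2 * r) := by
    rw [hA2, hB2, key_identity (P 2) w w' r x2 x2' x1 hrw, hm2', mul_comm x2 x1]
  refine AbcE.core r D d N 6 (P 0 ^ u') (P 0 ^ u) B1 B2 A1 A2 hB1p hB2p hA1p hA2p (by omega)
    (by omega) ?_ ?_ ?_ ?_ ?_ ?_ ?_ ?_
  · rw [← pow_mul]
    exact pow_dvd_pow _ hNu
  · rw [hB1, hB2, hm1, hm2]
    have e1 := H1.dvd 0 1 2 h01 h12 h02
    have e2 : ((P 0 ^ u : ℕ) : ℤ) ∣ (m 0 : ℤ) := Int.natCast_dvd_natCast.2 (H1.dvd_pow 0)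
    have e3 := e2.trans e1
    push_cast at e3 ⊢
    exact e3
  · rw [hB1, hB2, hm1, hm2]
    intro he
    exact H1.ne 1 2 h12 (Nat.pow_left_injective (n := 2) (by norm_num) he)
  · have e1 := H2.dvd 0 1 2 h01 h12 h02
    have e2 : ((P 0 ^ u' : ℕ) : ℤ) ∣ (m' 0 : ℤ) := Int.natCast_dvd_natCast.2 (H2.dvd_pow 0)
    have e3 := e2.trans e1
    have e4 : (A1 : ℤ) * B1 ^ r - A2 * B2 ^ r =
        ((m' 1 : ℤ) ^ 2 - (m' 2 : ℤ) ^ 2) * (x1 * x2) ^ (2 * r) := by
      have f1 : (A1 : ℤ) * B1 ^ r = (m' 1 : ℤ) ^ 2 * (x1 * x2) ^ (2 * r) := by exact_mod_cast hid1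
      have f2 : (A2 : ℤ) * B2 ^ r = (m' 2 : ℤ) ^ 2 * (x1 * x2) ^ (2 * r) := by exact_mod_cast hid2
      rw [f1, f2]
      ring
    rw [e4]
    exact e3.mul_right _
  · -- coprimality with `B1`
    rw [hB1, hm1]
    refine Nat.Coprime.pow_left _ (Nat.Coprime.pow_right _ ?_)
    exact H1.base_cop hδ1 hh1' h01
  · -- coprimality with `A2`
    refine Nat.Coprime.pow_left _ ?_
    have c1 : Nat.Coprime (P 0) (P 2) :=
      H1.cop_PP hδ1 hh1' h02
    have c2 : Nat.Coprime (P 0) x2' :=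
      (H2.base_cop hδ1 hh2' h02).coprime_dvd_right ⟨P 2 ^ w', by rw [← hm2']; ring⟩
    have c3 : Nat.Coprime (P 0) x1 :=
      (H1.base_cop hδ1 hh1' h01).coprime_dvd_right ⟨P 1 ^ v, by rw [← hm1]; ring⟩
    rw [hA2]
    exact Nat.Coprime.mul_right (Nat.Coprime.mul_right (c1.pow_right _) (c2.pow_right _))
      (c3.pow_right _)
  · -- size
    have lx1 : Real.log x1 ≤ δ * h1 := H1.co_le 1
    have lx2 : Real.log x2 ≤ δ * h1 := H1.co_le 2
    have lx1' : Real.log x1' ≤ δ * h2 := H2.co_le 1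
    have lx2' : Real.log x2' ≤ δ * h2 := H2.co_le 2
    have hP1R : (0 : ℝ) < P 1 := by exact_mod_cast hP1p
    have hP2R : (0 : ℝ) < P 2 := by exact_mod_cast hP2p
    have hx1R : (0 : ℝ) < x1 := by exact_mod_cast hx1p
    have hx2R : (0 : ℝ) < x2 := by exact_mod_cast hx2p
    have hx1R' : (0 : ℝ) < x1' := by exact_mod_cast hx1'p
    have hx2R' : (0 : ℝ) < x2' := by exact_mod_cast hx2'p
    have lB1 : Real.log (B1 : ℝ) ≤ 2 * h1 := by
      rw [hB1, hm1]
      push_cast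
      rw [Real.log_pow]
      have := H1.ub 1
      push_cast
      linarith
    have lB2 : Real.log (B2 : ℝ) ≤ 2 * h1 := by
      rw [hB2, hm2]
      push_cast
      rw [Real.log_pow]
      have := H1.ub 2
      push_cast
      linarith
    have hA : ∀ (Q y y' : ℝ) (n n' : ℕ), 0 < Q → 0 < y → 0 < y' → n * r ≤ n' →
        (1 - δ) * h1 ≤ n * Real.log Q → (n' : ℝ) * Real.log Q ≤ h2 → Real.log y' ≤ δ * h2 →
        Real.log y ≤ δ * h1 →
        Real.log (Q ^ (2 * (n' - n * r)) * y' ^ 2 * y ^ (2 * r)) ≤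
          h2 / 10000 := by
      intro Q y y' n n' hQ hy hy' hn e1 e2 e3 e4
      rw [Real.log_mul (by positivity) (by positivity), Real.log_mul (by positivity) (by positivity),
        Real.log_pow, Real.log_pow, Real.log_pow]
      push_cast
      rw [Nat.cast_sub hn]
      push_cast
      -- `(n' - n r) log Q ≤ h2 - r (1 - δ) h1`
      have e5 : ((n' : ℝ) - n * r) * Real.log Q ≤ h2 - r * ((1 - δ) * h1) := by
        have f1 : (r : ℝ) * ((1 - δ) * h1) ≤ r * (n * Real.log Q) := by gcongr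
        have f2 : ((n' : ℝ) - n * r) * Real.log Q = n' * Real.log Q - r * (n * Real.log Q) := by
          ring
        rw [f2]
        linarith only [f1, e2]
      have e6 : (r : ℝ) * Real.log y ≤ r * (δ * h1) := by gcongr
      have e7 : (1 - δ) * ((1 - δ) * h2 - h1) ≤ r * ((1 - δ) * h1) := by
        have : (1 - δ) * h2 - h1 ≤ r * h1 := by linarith
        calc (1 - δ) * ((1 - δ) * h2 - h1) ≤ (1 - δ) * (r * h1) := by
              apply mul_le_mul_of_nonneg_left this; linarith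
          _ = _ := by ring
      have e8 : (r : ℝ) * (δ * h1) ≤ 1.002 * (δ * h2) := by
        calc (r : ℝ) * (δ * h1) = δ * (r * h1) := by ring
          _ ≤ δ * (1.002 * h2) := by gcongr
          _ = _ := by ring
      have e9 : (1 - δ) * ((1 - δ) * h2 - h1) ≥ h2 - 2 * (δ * h2) - h1 := by
        have f1 : 0 ≤ δ * (δ * h2) := by positivity
        have f2 : 0 ≤ δ * h1 := by positivity
        have f3 : (1 - δ) * ((1 - δ) * h2 - h1) =
            h2 - 2 * (δ * h2) - h1 + δ * (δ * h2) + δ * h1 := by ring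
        rw [f3]
        linarith only [f1, f2]
      have e10 : 2 * ((n' : ℝ) - n * r) * Real.log Q = 2 * (((n' : ℝ) - n * r) * Real.log Q) := by
        ring
      have e11 : 2 * (r : ℝ) * Real.log y = 2 * (r * Real.log y) := by ring
      rw [e10, e11]
      linarith only [e3, e5, e6, e7, e8, e9, hδh2, hcon, hh2']
    have lA1 : Real.log (A1 : ℝ) ≤ h2 / 10000 := by
      rw [hA1]
      push_cast
      exact hA (P 1) x2 x1' v v' hP1R hx2R hx1R' hrv lv1 lv'2 lx1' lx2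
    have lA2 : Real.log (A2 : ℝ) ≤ h2 / 10000 := by
      rw [hA2]
      push_cast
      exact hA (P 2) x1 x2' w w' hP2R hx1R hx2R' hrw lw1 lw'2 lx2' lx1
    have hmB : (0 : ℝ) < ((max B1 B2 : ℕ) : ℝ) := by exact_mod_cast lt_max_of_lt_left hB1p
    have hmA : (0 : ℝ) < ((max A1 A2 : ℕ) : ℝ) := by exact_mod_cast lt_max_of_lt_left hA1p
    have lB : Real.log ((max B1 B2 : ℕ) : ℝ) ≤ 2 * h1 := by
      rcases max_choice B1 B2 with h | h <;> rw [h] <;> assumption
    have lA : Real.log ((max A1 A2 : ℕ) : ℝ) ≤ h2 / 10000 := by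
      rcases max_choice A1 A2 with h | h <;> rw [h] <;> assumption
    have hMR : (0 : ℝ) < ((P 0 ^ u' : ℕ) : ℝ) := by exact_mod_cast pow_pos hP0p _
    have hlogM : (1 - δ) * h2 ≤ Real.log ((P 0 ^ u' : ℕ) : ℝ) := by
      push_cast
      rw [Real.log_pow]
      exact lu'1
    have hxpos : (0 : ℝ) < (((D + 1) * (d + 1) : ℕ) : ℝ) := by
      exact_mod_cast (by positivity : 0 < (D + 1) * (d + 1))
    have hgoal : ((((D + 1) * (d + 1) : ℕ) : ℝ)) ^ 2 * (4 : ℝ) ^ (D + d * r) *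
        ((max B1 B2 : ℕ) : ℝ) ^ (6 * D) * ((max A1 A2 : ℕ) : ℝ) ^ (6 * d) <
        ((P 0 ^ u' : ℕ) : ℝ) := by
      rw [← Real.log_lt_log_iff (by positivity) hMR]
      refine lt_of_lt_of_le ?_ hlogM
      rw [Real.log_mul (by positivity) (by positivity), Real.log_mul (by positivity) (by positivity),
        Real.log_mul (by positivity) (by positivity), Real.log_pow, Real.log_pow, Real.log_pow,
        Real.log_pow]
      have hD1R : 60 * (D : ℝ) ≤ N := by exact_mod_cast hD1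
      have hdR : (d : ℝ) ≤ 240 := by exact_mod_cast hd3.le
      have hxR : (((D + 1) * (d + 1) : ℕ) : ℝ) ≤ 4 * N + (D + 1) := by exact_mod_cast hx
      have hD0 : (0 : ℝ) ≤ D := Nat.cast_nonneg _
      have hd0 : (0 : ℝ) ≤ d := Nat.cast_nonneg _
      have hN0 : (0 : ℝ) ≤ N := Nat.cast_nonneg _
      -- `N ≤ 1.002 h2 / h1 ≤ h2 / 9000`
      have hNs : (N : ℝ) * 10000 ≤ 1.002 * h2 := by
        refine le_trans ?_ hNh
        gcongr
      have hrs : (r : ℝ) * 10000 ≤ 1.002 * h2 := by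
        refine le_trans ?_ hrh
        gcongr
      have t1 : ((2 : ℕ) : ℝ) * Real.log (((D + 1) * (d + 1) : ℕ) : ℝ) ≤ 0.01 * h2 := by
        have h1 := Real.log_le_sub_one_of_pos hxpos
        push_cast at h1 hxR ⊢
        linarith
      have t2 : ((D + d * r : ℕ) : ℝ) * Real.log 4 ≤ 0.05 * h2 := by
        have h1 : Real.log 4 ≤ 1.4 := by
          have h2 : Real.log 4 = 2 * Real.log 2 := by
            rw [show (4 : ℝ) = 2 ^ 2 from by norm_num, Real.log_pow]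
            norm_num
          have := Real.log_two_lt_d9
          rw [h2]; linarith
        have h3 : (d : ℝ) * r ≤ 240 * r := by gcongr
        have h4 : (0 : ℝ) ≤ ((D + d * r : ℕ) : ℝ) := Nat.cast_nonneg _
        calc ((D + d * r : ℕ) : ℝ) * Real.log 4 ≤ ((D + d * r : ℕ) : ℝ) * 1.4 := by gcongr
          _ ≤ 0.05 * h2 := by
            push_cast
            linarith
      have t3 : ((6 * D : ℕ) : ℝ) * Real.log ((max B1 B2 : ℕ) : ℝ) ≤ 0.25 * h2 := by
        calc ((6 * D : ℕ) : ℝ) * Real.log ((max B1 B2 : ℕ) : ℝ) ≤ ((6 * D : ℕ) : ℝ) * (2 * h1) := by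
              gcongr
          _ = 0.2 * (60 * (D : ℝ)) * h1 := by push_cast; ring
          _ ≤ 0.2 * N * h1 := by gcongr
          _ = 0.2 * (N * h1) := by ring
          _ ≤ 0.25 * h2 := by linarith
      have t4 : ((6 * d : ℕ) : ℝ) * Real.log ((max A1 A2 : ℕ) : ℝ) ≤ 0.2 * h2 := by
        calc ((6 * d : ℕ) : ℝ) * Real.log ((max A1 A2 : ℕ) : ℝ)
            ≤ ((6 * d : ℕ) : ℝ) * (h2 / 10000) := by gcongr
          _ = 6 * (d : ℝ) * (h2 / 10000) := by push_cast; ring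
          _ ≤ 6 * 240 * (h2 / 10000) := by gcongr
          _ ≤ 0.2 * h2 := by linarith
      have t5 : (1 - δ) * h2 = h2 - δ * h2 := by ring
      rw [t5]
      refine lt_of_le_of_lt (add_le_add (add_le_add (add_le_add t1 t2) t3) t4) ?_
      linarith only [hδh2, hh2']
    exact_mod_cast hgoal
  · -- zero estimate
    have h1 : (d + 1) * D + (d + 1) = (D + 1) * (d + 1) := by ring
    omega

end Pool.Agent.Lib.AbcI
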