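import Mathlib
import Pool.Agent.Lib.AbcI.Siegel
import Pool.Agent.Lib.AbcI.Gap
import Pool.Agent.Lib.AbcH.Count

/-!
# At most one balanced triple of near powers of three given integers

Absolute form of the one-exception theorem: no radical, no `ε`.
-/

namespace Pool.Agent.Lib.AbcI

open Finset Pool.Agent.Lib.AbcH

/-- the members of the triple -/
def mem (a b c : ℕ) : Fin 3 → ℕ := ![a, b, c]

theorem mem_cases (l : Fin 3) : l = 0 ∨ l = 1 ∨ l = 2 := by omega

theorem mem_pos {a b c : ℕ} (h : AbcTriple a b c) (l : Fin 3) : 0 < mem a b c l := by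
  obtain ⟨ha, hb, hc, _⟩ := h
  rcases mem_cases l with rfl | rfl | rfl <;> simp [mem] <;> omega

theorem mem_cop {a b c : ℕ} (h : AbcTriple a b c) {l l' : Fin 3} (hl : l ≠ l') :
    Nat.Coprime (mem a b c l) (mem a b c l') := by
  obtain ⟨ha, hb, hc, hcop⟩ := h
  subst hc
  have hac : Nat.Coprime a (a + b) := by
    rw [Nat.coprime_self_add_right]
    exact hcop
  have hbc : Nat.Coprime b (a + b) := by
    rw [Nat.coprime_add_self_right]
    exact hcop.symm
  rcases mem_cases l with rfl | rfl | rfl <;> rcases mem_cases l' with rfl | rfl | rfl <;>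
    simp [mem] at hl ⊢ <;>
    first | exact hcop | exact hcop.symm | exact hac | exact hbc | exact hac.symm |
      exact hbc.symm

theorem mem_dvd_sq {a b c : ℕ} (h : AbcTriple a b c) {l l' l'' : Fin 3} (h1 : l ≠ l')
    (h2 : l' ≠ l'') (h3 : l ≠ l'') :
    (mem a b c l : ℤ) ∣ (mem a b c l' : ℤ) ^ 2 - (mem a b c l'' : ℤ) ^ 2 := by
  obtain ⟨ha, hb, hc, hcop⟩ := h
  subst hc
  rcases mem_cases l with rfl | rfl | rfl <;> rcases mem_cases l' with rfl | rfl | rfl <;>
    rcases mem_cases l'' with rfl | rfl | rfl <;> simp [mem] at h1 h2 h3 ⊢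
  · exact ⟨-((a : ℤ) + 2 * b), by ring⟩
  · exact ⟨(a : ℤ) + 2 * b, by ring⟩
  · exact ⟨-((b : ℤ) + 2 * a), by ring⟩
  · exact ⟨(b : ℤ) + 2 * a, by ring⟩
  · exact ⟨(a : ℤ) - b, by ring⟩
  · exact ⟨(b : ℤ) - a, by ring⟩

/-- Two triples concentrated on powers of the same three integers are equal. -/
theorem eq_of_conc {δ : ℝ} {P e e' : Fin 3 → ℕ} {a b c a' b' c' : ℕ} (hT : AbcTriple a b c)
    (hT' : AbcTriple a' b' c')
    (σ σ' : Equiv.Perm (Fin 3)) (hδ0 : 0 ≤ δ) (hδ : δ ≤ 1 / 100000000)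
    (H : Conc δ (Real.log c) P e (fun i => mem a b c (σ i)))
    (H' : Conc δ (Real.log c') P e' (fun i => mem a' b' c' (σ' i)))
    (hh : 10000 ≤ Real.log c) (hle : Real.log c ≤ Real.log c') :
    c = c' ∧ ((a = a' ∧ b = b') ∨ (a = b' ∧ b = a')) := by
  have hs := siegel_gap H H' hδ0 (by linarith) hh
  obtain ⟨n, q, hn, hq, hnq⟩ := gap H H' hδ0 hδ (by linarith) hle hs.le
  -- the index of the largest member
  have hlt : ∀ {a b c : ℕ}, AbcTriple a b c → ∀ l : Fin 3, l ≠ 2 → mem a b c l < mem a b c 2 := by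
    intro a b c hs l hl
    obtain ⟨h1, h2, h3, _⟩ := hs
    have hl' : l = 0 ∨ l = 1 := by omega
    rcases hl' with rfl | rfl <;> simp [mem] <;> omega
  have hidx : σ' (σ.symm 2) = 2 := by
    by_contra hne
    set i := σ.symm 2 with hi
    set j := σ'.symm 2 with hj
    have hij : i ≠ j := by
      intro h
      apply hne
      rw [h, hj, Equiv.apply_symm_apply]
    have hσi : σ i = 2 := by rw [hi, Equiv.apply_symm_apply]
    have hσj : σ j ≠ 2 := by
      intro h
      apply hij
      rw [hi, ← h, Equiv.symm_apply_apply]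
    have h1 : mem a b c (σ j) < mem a b c (σ i) := by
      rw [hσi]
      exact hlt hT _ hσj
    have h2 : mem a' b' c' (σ' i) < mem a' b' c' (σ' j) := by
      have : σ' j = 2 := by rw [hj, Equiv.apply_symm_apply]
      rw [this]
      exact hlt hT' _ hne
    have h3 : mem a b c (σ j) ^ n < mem a b c (σ i) ^ n := Nat.pow_lt_pow_left h1 hn.ne'
    rw [hnq, hnq] at h3
    have h4 : mem a' b' c' (σ' i) ^ q < mem a' b' c' (σ' j) ^ q := Nat.pow_lt_pow_left h2 hq.ne'
    omega
  -- the other two indices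
  set i2 := σ.symm 2 with hi2
  set i0 := σ.symm 0 with hi0
  set i1 := σ.symm 1 with hi1
  have s2 : σ i2 = 2 := by rw [hi2, Equiv.apply_symm_apply]
  have s0 : σ i0 = 0 := by rw [hi0, Equiv.apply_symm_apply]
  have s1 : σ i1 = 1 := by rw [hi1, Equiv.apply_symm_apply]
  have n01 : i0 ≠ i1 := by
    intro h
    have := congrArg σ h
    rw [s0, s1] at this
    exact absurd this (by decide)
  have n02 : i0 ≠ i2 := by
    intro h
    have := congrArg σ h
    rw [s0, s2] at this
    exact absurd this (by decide)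
  have n12 : i1 ≠ i2 := by
    intro h
    have := congrArg σ h
    rw [s1, s2] at this
    exact absurd this (by decide)
  have g0 : σ' i0 ≠ 2 := by
    intro h
    apply n02
    apply σ'.injective
    rw [h, hidx]
  have g1 : σ' i1 ≠ 2 := by
    intro h
    apply n12
    apply σ'.injective
    rw [h, hidx]
  have g01 : σ' i0 ≠ σ' i1 := fun h => n01 (σ'.injective h)
  have hcc : a + b = c := hT.2.2.1
  have hcc' : a' + b' = c' := hT'.2.2.1
  have hsum' : mem a' b' c' (σ' i0) + mem a' b' c' (σ' i1) = mem a' b' c' (σ' i2) := by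
    rw [hidx]
    have c0 : σ' i0 = 0 ∨ σ' i0 = 1 := by omega
    have c1 : σ' i1 = 0 ∨ σ' i1 = 1 := by omega
    rcases c0 with c0 | c0 <;> rcases c1 with c1 | c1
    · exact absurd (c0.trans c1.symm) g01
    · rw [c0, c1]
      simpa [mem] using hcc'
    · rw [c0, c1]
      simp [mem]
      omega
    · exact absurd (c0.trans c1.symm) g01
  have hsum : mem a b c (σ i0) + mem a b c (σ i1) = mem a b c (σ i2) := by
    rw [s0, s1, s2]
    simpa [mem] using hcc
  have hnq' : n = q := eq_of_sum (mem_pos hT _) (mem_pos hT _) (mem_pos hT' _) (mem_pos hT' _)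
    hn hq hsum hsum' (hnq i0) (hnq i1) (hnq i2)
  subst hnq'
  have heq : ∀ i, mem a b c (σ i) = mem a' b' c' (σ' i) := fun i =>
    Nat.pow_left_injective (n := n) hn.ne' (hnq i)
  have q0 : a = mem a' b' c' (σ' i0) := by
    rw [← heq, s0]
    simp [mem]
  have q1 : b = mem a' b' c' (σ' i1) := by
    rw [← heq, s1]
    simp [mem]
  have c0 : σ' i0 = 0 ∨ σ' i0 = 1 := by omega
  have c1 : σ' i1 = 0 ∨ σ' i1 = 1 := by omega
  rcases c0 with c0 | c0 <;> rcases c1 with c1 | c1
  · exact absurd (c0.trans c1.symm) g01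
  · rw [c0] at q0
    rw [c1] at q1
    simp only [mem, Matrix.cons_val_zero, Matrix.cons_val_one] at q0 q1
    exact ⟨by omega, Or.inl ⟨q0, q1⟩⟩
  · rw [c0] at q0
    rw [c1] at q1
    simp only [mem, Matrix.cons_val_zero, Matrix.cons_val_one] at q0 q1
    exact ⟨by omega, Or.inr ⟨q0, q1⟩⟩
  · exact absurd (c0.trans c1.symm) g01

/-- `m` is divisible by a power of `x` which is at least `c ^ (1 - 10⁻⁸)`. -/
def NearPower (x m c : ℕ) : Prop :=
  ∃ k : ℕ, x ^ k ∣ m ∧ (c : ℝ) ^ (1 - 1 / 100000000 : ℝ) ≤ (x : ℝ) ^ k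

/-- The members `a, b, c`, in some order, are near powers of `X 0, X 1, X 2`. -/
def Near (X : Fin 3 → ℕ) (a b c : ℕ) : Prop :=
  ∃ σ : Equiv.Perm (Fin 3), ∀ i, NearPower (X i) (mem a b c (σ i)) c

theorem conc_of_near {X : Fin 3 → ℕ} (hX : ∀ i, 2 ≤ X i) {a b c : ℕ} (hT : AbcTriple a b c)
    (hc : 10000 ≤ Real.log c) (h : Near X a b c) :
    ∃ (e : Fin 3 → ℕ) (σ : Equiv.Perm (Fin 3)),
      Conc (1 / 100000000) (Real.log c) X e (fun i => mem a b c (σ i)) := by
  obtain ⟨σ, h⟩ := h
  choose e he using h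
  refine ⟨e, σ, ?_⟩
  have hT' := hT
  obtain ⟨ha, hb, hcc, hcop⟩ := hT'
  have hc0 : 0 < c := by omega
  have hcR : (0 : ℝ) < c := by exact_mod_cast hc0
  have hσinj : ∀ i j : Fin 3, i ≠ j → σ i ≠ σ j := fun i j h h' => h (σ.injective h')
  have hle : ∀ l, mem a b c l ≤ c := by
    intro l
    rcases mem_cases l with rfl | rfl | rfl <;> simp [mem] <;> omega
  refine ⟨fun i => mem_pos hT _, hX, fun i j h => mem_cop hT (hσinj i j h), ?_,
    fun i j k h1 h2 h3 => mem_dvd_sq hT (hσinj _ _ h1) (hσinj _ _ h2) (hσinj _ _ h3), ?_,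
    fun i => (he i).1, ?_⟩
  · intro i j hij heq
    -- a member equal to another one is `1`, but its power part is large
    have h1 := mem_cop hT (hσinj i j hij)
    rw [heq, Nat.coprime_self] at h1
    have h2 := (he j).1
    have h3 := (he j).2
    rw [h1, Nat.dvd_one] at h2
    have h4 : ((X j : ℝ)) ^ e j = 1 := by exact_mod_cast h2
    rw [h4] at h3
    have h5 : (1 : ℝ) < (c : ℝ) ^ (1 - 1 / 100000000 : ℝ) := by
      apply Real.one_lt_rpow _ (by norm_num)
      by_contra hcon
      push Not at hcon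
      have := Real.log_nonpos hcR.le hcon
      linarith
    linarith
  · intro i
    have h1 := hle (σ i)
    have h2 := mem_pos hT (σ i)
    exact Real.log_le_log (by exact_mod_cast h2) (by exact_mod_cast h1)
  · intro i
    have h1 := Real.log_le_log (by positivity) (he i).2
    rw [Real.log_rpow hcR, Real.log_pow] at h1
    exact h1

/-- **Absolute form.** For any three integers at least two, at most one abc-triple with
`log c ≥ 10⁴`, up to exchanging `a` and `b`, has its members divisible, in some order, by powers of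
these integers which are at least `c ^ (1 - 10⁻⁸)`. -/
theorem abs_one (X : Fin 3 → ℕ) (hX : ∀ i, 2 ≤ X i) {a b c a' b' c' : ℕ} (hT : AbcTriple a b c)
    (hT' : AbcTriple a' b' c') (hc : 10000 ≤ Real.log c) (hc' : 10000 ≤ Real.log c')
    (h : Near X a b c) (h' : Near X a' b' c') :
    c = c' ∧ ((a = a' ∧ b = b') ∨ (a = b' ∧ b = a')) := by
  obtain ⟨e, σ, H⟩ := conc_of_near hX hT hc h
  obtain ⟨e', σ', H'⟩ := conc_of_near hX hT' hc' h'
  rcases le_total (Real.log c) (Real.log c') with hle | hle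
  · exact eq_of_conc hT hT' σ σ' (by norm_num) le_rfl H H' hc hle
  · obtain ⟨h1, h2 | h2⟩ := eq_of_conc hT' hT σ' σ (by norm_num) le_rfl H' H hc' hle
    · exact ⟨h1.symm, Or.inl ⟨h2.1.symm, h2.2.symm⟩⟩
    · exact ⟨h1.symm, Or.inr ⟨h2.2.symm, h2.1.symm⟩⟩

end Pool.Agent.Lib.AbcI
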